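import Pool.Agent.Lib.MP_6bc78b_nt.MS.QZ.Iface
import Pool.Agent.Lib.MP_6bc78b_nt.MS.P5.H59.Momk
import Pool.Agent.Lib.MP_6bc78b_nt.MS.P4.H84.Nas

/-! Project MS, Part QZ, module DMV: auxiliary facts. -/

set_option autoImplicit false

open Complex Filter Topology MeasureTheory ArithmeticFunction

namespace Pool.Agent.Lib.MP_6bc78b_nt.MS.QZ.H70

open Pool.Agent.Lib.MP_6bc78b_nt.MS Pool.Agent.Lib.MP_6bc78b_nt.MS.P1

/-- The restriction of `d` to `n ≤ N`. -/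
noncomputable def cut (d : ArithmeticFunction ℝ) (N : ℕ) : ArithmeticFunction ℝ :=
  ⟨fun n => if n ≤ N then d n else 0, by simp⟩

lemma cut_apply (d : ArithmeticFunction ℝ) (N n : ℕ) :
    cut d N n = if n ≤ N then d n else 0 := rfl

lemma cut_supp (d : ArithmeticFunction ℝ) (N : ℕ) : ∀ n, N < n → cut d N n = 0 := by
  intro n hn
  rw [cut_apply, if_neg (by omega)]

lemma cut_of_mem (d : ArithmeticFunction ℝ) {N n : ℕ} (h : n ∈ Finset.Icc 1 N) :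
    cut d N n = d n := by
  rw [Finset.mem_Icc] at h
  rw [cut_apply, if_pos h.2]

lemma abs_cut_le (d : ArithmeticFunction ℝ) (N n : ℕ) : |cut d N n| ≤ |d n| := by
  rw [cut_apply]
  split_ifs
  · exact le_rfl
  · rw [abs_zero]; exact abs_nonneg _

lemma dpoly_cut (d : ArithmeticFunction ℝ) (x : ℝ) (s : ℂ) :
    dpoly d x s = ∑ n ∈ Finset.Icc 1 ⌊x⌋₊, ((cut d ⌊x⌋₊ n : ℝ) : ℂ) * (n : ℂ) ^ (-s) := by
  unfold dpoly
  refine Finset.sum_congr rfl fun n hn => ?_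
  rw [cut_of_mem d hn]

lemma LS_cut (d : ArithmeticFunction ℝ) (x : ℝ) (s : ℂ) :
    LS (cut d ⌊x⌋₊) s = dpoly d x s := by
  rw [P5.H59.LS_fin _ _ (cut_supp d ⌊x⌋₊) s, dpoly_cut]

lemma dpoly_conj (d : ArithmeticFunction ℝ) (x : ℝ) (s : ℂ) :
    dpoly d x ((starRingEnd ℂ) s) = (starRingEnd ℂ) (dpoly d x s) := by
  unfold dpoly
  rw [map_sum]
  refine Finset.sum_congr rfl (fun n hn => ?_)
  rw [Finset.mem_Icc] at hn
  rw [map_mul, Complex.conj_ofReal]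
  congr 1
  have hn' : (n : ℂ) ≠ 0 := by exact_mod_cast (by omega : n ≠ 0)
  rw [Complex.cpow_def_of_ne_zero hn', Complex.cpow_def_of_ne_zero hn', ← Complex.exp_conj,
    map_mul, map_neg, ← Complex.natCast_log, Complex.conj_ofReal]

lemma dpoly_diff (d : ArithmeticFunction ℝ) (x : ℝ) : Differentiable ℂ (dpoly d x) := by
  unfold dpoly
  apply Differentiable.fun_sum
  intro n hn
  rw [Finset.mem_Icc] at hn
  have hn' : (n : ℂ) ≠ 0 := by exact_mod_cast (by omega : n ≠ 0)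
  apply Differentiable.const_mul
  intro s
  exact (DifferentiableAt.const_cpow (by fun_prop) (Or.inl hn'))

/-- A crude bound for a Dirichlet polynomial. -/
lemma sum_norm_le (b : ℕ → ℝ) (N : ℕ) (T : ℝ) (hT : 1 ≤ T) (hN : (N : ℝ) ≤ T)
    (hb : ∀ n, |b n| ≤ T ^ (3 : ℝ)) (s : ℂ) (hs : -1 ≤ s.re) :
    ‖∑ n ∈ Finset.Icc 1 N, ((b n : ℝ) : ℂ) * (n : ℂ) ^ (-s)‖ ≤ T ^ (5 : ℝ) := by
  have hT0 : 0 < T := by linarith
  have h2 : ∀ n ∈ Finset.Icc 1 N, ‖((b n : ℝ) : ℂ) * (n : ℂ) ^ (-s)‖ ≤ T ^ (3 : ℝ) * T := by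
    intro n hn
    rw [Finset.mem_Icc] at hn
    have hn' : (1 : ℝ) ≤ n := by exact_mod_cast hn.1
    have hn2 : (n : ℝ) ≤ T := by
      have : (n : ℝ) ≤ N := by exact_mod_cast hn.2
      linarith
    rw [norm_mul, Complex.norm_real, Real.norm_eq_abs,
      Complex.norm_natCast_cpow_of_pos (by omega)]
    have h4 : (n : ℝ) ^ (-s).re ≤ n := by
      calc (n : ℝ) ^ (-s).re ≤ (n : ℝ) ^ (1 : ℝ) :=
            Real.rpow_le_rpow_of_exponent_le hn' (by rw [Complex.neg_re]; linarith)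
        _ = n := Real.rpow_one _
    exact mul_le_mul (hb n) (h4.trans hn2) (by positivity) (by positivity)
  refine le_trans (norm_sum_le _ _) (le_trans (Finset.sum_le_sum h2) ?_)
  rw [Finset.sum_const, Nat.card_Icc, nsmul_eq_mul, Nat.add_sub_cancel]
  calc (N : ℝ) * (T ^ (3 : ℝ) * T) ≤ T * (T ^ (3 : ℝ) * T) := by
        apply mul_le_mul_of_nonneg_right hN; positivity
    _ = T ^ (1 : ℝ) * T ^ (3 : ℝ) * T ^ (1 : ℝ) := by rw [Real.rpow_one]; ring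
    _ = T ^ (5 : ℝ) := by
        rw [← Real.rpow_add hT0, ← Real.rpow_add hT0]; norm_num

lemma floor_le_T (T δ : ℝ) (hT : 1 ≤ T) (hδ : 0 < δ) : ((⌊T ^ (1 - δ)⌋₊ : ℕ) : ℝ) ≤ T := by
  have h1 : ((⌊T ^ (1 - δ)⌋₊ : ℕ) : ℝ) ≤ T ^ (1 - δ) := Nat.floor_le (by positivity)
  have h2 : T ^ (1 - δ) ≤ T ^ (1 : ℝ) :=
    Real.rpow_le_rpow_of_exponent_le hT (by linarith)
  rw [Real.rpow_one] at h2
  linarith

lemma divAnti_eq (N k : ℕ) (hk : k ∈ Finset.Icc 1 N) :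
    k.divisorsAntidiagonal =
      (Finset.Icc 1 N ×ˢ Finset.Icc 1 N).filter (fun x => x.1 * x.2 = k) := by
  rw [Finset.mem_Icc] at hk
  ext ⟨a, b⟩
  simp only [Nat.mem_divisorsAntidiagonal, Finset.mem_filter, Finset.mem_product, Finset.mem_Icc]
  constructor
  · rintro ⟨h, h0⟩
    have ha : 0 < a := Nat.pos_of_ne_zero (by rintro rfl; simp at h; omega)
    have hb : 0 < b := Nat.pos_of_ne_zero (by rintro rfl; simp at h; omega)
    refine ⟨⟨⟨ha, ?_⟩, ⟨hb, ?_⟩⟩, h⟩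
    · nlinarith
    · nlinarith
  · rintro ⟨-, h⟩
    exact ⟨h, by omega⟩

/-- Sums over the divisors against the full double sum. -/
lemma sum_divAnti_le (N : ℕ) (g : ℕ → ℕ → ℝ) (hg : ∀ a b, 0 ≤ g a b) :
    ∑ k ∈ Finset.Icc 1 N, ∑ x ∈ k.divisorsAntidiagonal, g x.1 x.2 ≤
      ∑ a ∈ Finset.Icc 1 N, ∑ b ∈ Finset.Icc 1 N, g a b := by
  have h1 : ∑ k ∈ Finset.Icc 1 N, ∑ x ∈ k.divisorsAntidiagonal, g x.1 x.2 =
      ∑ x ∈ Finset.Icc 1 N ×ˢ Finset.Icc 1 N, ∑ k ∈ Finset.Icc 1 N,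
        (if x.1 * x.2 = k then g x.1 x.2 else 0) := by
    rw [Finset.sum_comm]
    refine Finset.sum_congr rfl fun k hk => ?_
    rw [divAnti_eq N k hk, Finset.sum_filter]
  have h2 : ∑ a ∈ Finset.Icc 1 N, ∑ b ∈ Finset.Icc 1 N, g a b =
      ∑ x ∈ Finset.Icc 1 N ×ˢ Finset.Icc 1 N, g x.1 x.2 := (Finset.sum_product' _ _ _).symm
  rw [h1, h2]
  apply Finset.sum_le_sum
  intro x _
  rw [Finset.sum_ite_eq]
  split_ifs
  · exact le_rfl
  · exact hg _ _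

/-- The diagonal sum with the von Mangoldt function. -/
lemma diag_le (C : ℝ)
    (hC : ∀ x : ℝ, 1 ≤ x → |∑ n ∈ Finset.Icc 1 ⌊x⌋₊, L.w1 n - Real.log x| ≤ C)
    (N : ℕ) (d : ArithmeticFunction ℝ) :
    |∑ k ∈ Finset.Icc 1 N, (La * cut d N) k * d k / k| ≤
      (Real.log N + C) * ∑ k ∈ Finset.Icc 1 N, d k ^ 2 / k := by
  rcases Nat.eq_zero_or_pos N with hN | hN
  · subst hN; simp
  have hN1 : (1 : ℝ) ≤ N := by exact_mod_cast hN
  have hlog : 0 ≤ Real.log N := Real.log_nonneg hN1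
  have hC1 : ∑ m ∈ Finset.Icc 1 N, vonMangoldt m / (m : ℝ) ≤ Real.log N + C := by
    have h := hC N hN1
    rw [Nat.floor_natCast] at h
    have h2 := (abs_le.mp h).2
    have h3 : ∑ m ∈ Finset.Icc 1 N, vonMangoldt m / (m : ℝ) = ∑ n ∈ Finset.Icc 1 N, L.w1 n := rfl
    rw [h3]
    linarith
  set S : ℝ := ∑ k ∈ Finset.Icc 1 N, d k ^ 2 / k with hS
  have hS0 : 0 ≤ S := Finset.sum_nonneg fun k _ => by positivity
  have key : ∀ k ∈ Finset.Icc 1 N, |(La * cut d N) k * d k / k| ≤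
      (∑ x ∈ k.divisorsAntidiagonal, (vonMangoldt x.1 / (x.1 : ℝ)) * (d x.2 ^ 2 / (x.2 : ℝ))) / 2 +
        Real.log k * (d k ^ 2 / k) / 2 := by
    intro k hk
    have hk1 := (Finset.mem_Icc.mp hk).1
    have hk0 : (0 : ℝ) < k := by exact_mod_cast hk1
    rw [ArithmeticFunction.mul_apply, Finset.sum_mul, Finset.sum_div]
    refine (Finset.abs_sum_le_sum_abs _ _).trans ?_
    have h1 : ∀ x ∈ k.divisorsAntidiagonal, |La x.1 * cut d N x.2 * d k / k| ≤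
        (vonMangoldt x.1 / (x.1 : ℝ)) * (d x.2 ^ 2 / (x.2 : ℝ)) / 2 +
          vonMangoldt x.1 * (d k ^ 2 / k) / 2 := by
      intro x hx
      rw [Nat.mem_divisorsAntidiagonal] at hx
      have hx1 : (x.1 : ℝ) * x.2 = k := by exact_mod_cast hx.1
      have hL0 : 0 ≤ vonMangoldt x.1 := vonMangoldt_nonneg
      have hL : La x.1 = vonMangoldt x.1 := rfl
      rw [abs_div, abs_mul, abs_mul, hL, abs_of_nonneg hL0, abs_of_pos hk0]
      have h2 := abs_cut_le d N x.2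
      have h3 : |d x.2| * |d k| ≤ (d x.2 ^ 2 + d k ^ 2) / 2 := by
        have := sq_nonneg (|d x.2| - |d k|)
        rw [← sq_abs (d x.2), ← sq_abs (d k)]
        linarith
      have h4 : vonMangoldt x.1 * |cut d N x.2| * |d k| / k ≤
          vonMangoldt x.1 * ((d x.2 ^ 2 + d k ^ 2) / 2) / k := by
        apply div_le_div_of_nonneg_right _ hk0.le
        rw [mul_assoc]
        apply mul_le_mul_of_nonneg_left _ hL0
        exact (mul_le_mul_of_nonneg_right h2 (abs_nonneg _)).trans h3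
      refine h4.trans (le_of_eq ?_)
      rw [div_mul_div_comm, hx1]
      ring
    refine (Finset.sum_le_sum h1).trans (le_of_eq ?_)
    rw [Finset.sum_add_distrib, ← Finset.sum_div, ← Finset.sum_div, ← Finset.sum_mul]
    congr 3
    rw [Nat.sum_divisorsAntidiagonal (fun a _ => vonMangoldt a), vonMangoldt_sum]
  refine (Finset.abs_sum_le_sum_abs _ _).trans ((Finset.sum_le_sum key).trans ?_)
  rw [Finset.sum_add_distrib, ← Finset.sum_div, ← Finset.sum_div]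
  have hA : ∑ k ∈ Finset.Icc 1 N, ∑ x ∈ k.divisorsAntidiagonal,
      (vonMangoldt x.1 / (x.1 : ℝ)) * (d x.2 ^ 2 / (x.2 : ℝ)) ≤ (Real.log N + C) * S := by
    refine (sum_divAnti_le N (fun a b => (vonMangoldt a / (a : ℝ)) * (d b ^ 2 / (b : ℝ)))
      (fun a b => mul_nonneg (div_nonneg vonMangoldt_nonneg (Nat.cast_nonneg _))
        (by positivity))).trans ?_
    simp_rw [← Finset.mul_sum]
    rw [← Finset.sum_mul]
    exact mul_le_mul_of_nonneg_right hC1 hS0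
  have hB : ∑ k ∈ Finset.Icc 1 N, Real.log k * (d k ^ 2 / k) ≤ Real.log N * S := by
    rw [hS, Finset.mul_sum]
    refine Finset.sum_le_sum fun k hk => ?_
    rw [Finset.mem_Icc] at hk
    have hk0 : (0 : ℝ) < k := by exact_mod_cast hk.1
    apply mul_le_mul_of_nonneg_right _ (by positivity)
    exact Real.log_le_log hk0 (by exact_mod_cast hk.2)
  have hC0 : 0 ≤ C := by
    have := hC 1 le_rfl
    exact (abs_nonneg _).trans this
  have hCS : 0 ≤ C * S := mul_nonneg hC0 hS0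
  linarith [hA, hB]

/-- The sum over the zeros as a real number. -/
lemma ZS_real (T : ℝ) (F : ℂ → ℂ) (f : ℝ → ℝ)
    (h : ∀ γ : ℝ, F (1 / 2 + γ * I) = ((f γ : ℝ) : ℂ)) :
    ZS T F = ((∑ᶠ γ ∈ zset T, (mz γ : ℝ) * wt T γ * f γ : ℝ) : ℂ) := by
  have h1 : ((∑ᶠ γ ∈ zset T, (mz γ : ℝ) * wt T γ * f γ : ℝ) : ℂ) =
      Complex.ofRealHom.toAddMonoidHom (∑ᶠ γ ∈ zset T, (mz γ : ℝ) * wt T γ * f γ) := rfl
  rw [h1, AddMonoidHom.map_finsum_of_injective _ Complex.ofReal_injective]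
  unfold ZS
  refine finsum_congr fun γ => ?_
  rw [AddMonoidHom.map_finsum_of_injective _ Complex.ofReal_injective]
  refine finsum_congr fun _ => ?_
  rw [P4.H84.ww_eq, h γ]
  simp

end Pool.Agent.Lib.MP_6bc78b_nt.MS.QZ.H70
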