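import Pool.Agent.Lib.MP_6bc78b_nt.MS.QZ.Iface3

/-! Module QFC: elementary properties of the tail of the normal distribution. -/

set_option autoImplicit false

open Complex Filter Topology MeasureTheory ArithmeticFunction

namespace Pool.Agent.Lib.MP_6bc78b_nt.MS.QZ.H70

open Pool.Agent.Lib.MP_6bc78b_nt.MS Pool.Agent.Lib.MP_6bc78b_nt.MS.QZ

theorem qfc_int : Integrable (fun u : ℝ => Real.exp (-(u ^ 2 / 2))) := by
  have h := integrable_exp_neg_mul_sq (b := (1 / 2 : ℝ)) (by norm_num)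
  refine h.congr (Filter.Eventually.of_forall fun u => ?_)
  simp only
  congr 1
  ring

theorem qfc_tot : ∫ u : ℝ, Real.exp (-(u ^ 2 / 2)) = Real.sqrt (2 * Real.pi) := by
  have h := integral_gaussian (1 / 2 : ℝ)
  have e : (fun u : ℝ => Real.exp (-(u ^ 2 / 2))) = fun u : ℝ => Real.exp (-(1 / 2) * u ^ 2) := by
    funext u
    congr 1
    ring
  rw [e, h]
  congr 1
  ring

theorem qfc : QfcStatement := by
  intro x y hxy
  have hs : 0 < Real.sqrt (2 * Real.pi) := Real.sqrt_pos.mpr (by positivity)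
  have hs1 : 1 ≤ Real.sqrt (2 * Real.pi) := by
    rw [Real.one_le_sqrt]
    nlinarith [Real.pi_gt_three]
  have hi : 0 < (Real.sqrt (2 * Real.pi))⁻¹ := inv_pos.mpr hs
  have hi1 : (Real.sqrt (2 * Real.pi))⁻¹ ≤ 1 := inv_le_one_of_one_le₀ hs1
  have hnn : ∀ u : ℝ, 0 ≤ Real.exp (-(u ^ 2 / 2)) := fun u => (Real.exp_pos _).le
  have hI : ∀ S : Set ℝ, IntegrableOn (fun u : ℝ => Real.exp (-(u ^ 2 / 2))) S :=
    fun S => qfc_int.integrableOn
  have h0 : 0 ≤ ∫ u in Set.Ioi y, Real.exp (-(u ^ 2 / 2)) :=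
    setIntegral_nonneg measurableSet_Ioi fun u _ => hnn u
  have hsplit : ∫ u in Set.Ioi x, Real.exp (-(u ^ 2 / 2)) =
      (∫ u in Set.Ioc x y, Real.exp (-(u ^ 2 / 2))) +
        ∫ u in Set.Ioi y, Real.exp (-(u ^ 2 / 2)) := by
    rw [← Set.Ioc_union_Ioi_eq_Ioi hxy]
    exact setIntegral_union (Set.Ioc_disjoint_Ioi le_rfl) measurableSet_Ioi (hI _) (hI _)
  have hm0 : 0 ≤ ∫ u in Set.Ioc x y, Real.exp (-(u ^ 2 / 2)) :=
    setIntegral_nonneg measurableSet_Ioc fun u _ => hnn u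
  have hm1 : ∫ u in Set.Ioc x y, Real.exp (-(u ^ 2 / 2)) ≤ y - x := by
    have h1 : ∫ u in Set.Ioc x y, Real.exp (-(u ^ 2 / 2)) ≤ ∫ _u in Set.Ioc x y, (1 : ℝ) := by
      refine setIntegral_mono_on (hI _) (integrableOn_const (by simp)) measurableSet_Ioc ?_
      intro u _
      rw [Real.exp_le_one_iff]
      nlinarith [sq_nonneg u]
    refine h1.trans (le_of_eq ?_)
    simp [hxy]
  refine ⟨mul_nonneg hi.le h0, ?_, ?_, ?_⟩
  · unfold Qf
    rw [hsplit]
    exact mul_le_mul_of_nonneg_left (by linarith) hi.le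
  · unfold Qf
    rw [hsplit, mul_add]
    have : (Real.sqrt (2 * Real.pi))⁻¹ * (∫ u in Set.Ioc x y, Real.exp (-(u ^ 2 / 2))) ≤
        1 * (y - x) := mul_le_mul hi1 hm1 hm0 zero_le_one
    linarith
  · unfold Qf
    have h1 : ∫ u in Set.Ioi x, Real.exp (-(u ^ 2 / 2)) ≤ Real.sqrt (2 * Real.pi) := by
      rw [← qfc_tot]
      exact setIntegral_le_integral qfc_int (Filter.Eventually.of_forall hnn)
    calc (Real.sqrt (2 * Real.pi))⁻¹ * ∫ u in Set.Ioi x, Real.exp (-(u ^ 2 / 2))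
        ≤ (Real.sqrt (2 * Real.pi))⁻¹ * Real.sqrt (2 * Real.pi) :=
          mul_le_mul_of_nonneg_left h1 hi.le
      _ = 1 := inv_mul_cancel₀ hs.ne'

end Pool.Agent.Lib.MP_6bc78b_nt.MS.QZ.H70
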