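import Pool.Agent.Lib.MP_6bc78b_nt.MS.QZ.Iface

/-! Project MS, Part QZ, module MOF: fractional moments of the mollifier over the zeros. -/

set_option autoImplicit false

open Complex Filter Topology MeasureTheory ArithmeticFunction

namespace Pool.Agent.Lib.MP_6bc78b_nt.MS.QZ.H70

open Pool.Agent.Lib.MP_6bc78b_nt.MS Pool.Agent.Lib.MP_6bc78b_nt.MS.P1

/-- The factor of the index `j`. -/
lemma factor_eq (T : ℝ) (j : ℕ) (u : ℝ) (z : ℂ) (hu : u = ‖z‖) :
    (if j < JJ T then (u / RJ T j) ^ (2 * rJ T j) else 1) =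
      ‖z ^ rj T j‖ ^ 2 / RJ T j ^ (2 * rj T j) := by
  unfold rj
  split_ifs with h
  · rw [hu, div_pow, norm_pow, ← pow_mul, mul_comm (rJ T j) 2]
  · simp

/-- One index. -/
lemma one_index {k CD CA CB X Y W R SA SB : ℝ} (hk : 0 < k) (hk1 : k ≤ 1) (hCD : 0 < CD)
    (hCB : 0 < CB) (hX : 0 ≤ X) (hY : 0 ≤ Y) (hW : 0 ≤ W) (hR : 1 ≤ R)
    (hA : SA ≤ CD * (X * (CA / k ^ 2 * Y * W * R) + 1))
    (hB : SB ≤ CD * (X * (CB * Y * W * R) + 1)) :
    (k * SA + (1 - k) * SB) / R ≤ CD * (X * Y * W * (CA / k + CB) + 1) := by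
  have hR0 : 0 < R := by linarith
  rw [div_le_iff₀ hR0]
  have h1 := mul_le_mul_of_nonneg_left hA hk.le
  have h2 := mul_le_mul_of_nonneg_left hB (by linarith : 0 ≤ 1 - k)
  have h3 : k * (CD * (X * (CA / k ^ 2 * Y * W * R) + 1)) =
      CD * (X * Y * W * (CA / k)) * R + CD * k := by
    field_simp
  have h4 : (1 - k) * (CD * (X * (CB * Y * W * R) + 1)) ≤
      CD * (X * Y * W * CB) * R + CD * (1 - k) := by
    have h5 : 0 ≤ k * (CD * (X * (CB * Y * W * R))) := by positivity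
    have h6 : (1 - k) * (CD * (X * (CB * Y * W * R) + 1)) =
      CD * (X * Y * W * CB) * R + CD * (1 - k) - k * (CD * (X * (CB * Y * W * R))) := by ring
    rw [h6]
    linarith
  have h7 : CD * 1 ≤ CD * R := mul_le_mul_of_nonneg_left hR hCD.le
  have h8 : CD * (X * Y * W * (CA / k + CB) + 1) * R =
      CD * (X * Y * W * (CA / k)) * R + CD * (X * Y * W * CB) * R + CD * R := by ring
  rw [h8]
  linarith

/-- All indices together. -/
lemma all_index {k CD CA CB X Y : ℝ} (J : ℕ) (W : ℕ → ℝ) (hk : 0 < k) (hk1 : k ≤ 1)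
    (hCD : 0 < CD) (hCA : 0 < CA) (hCB : 0 < CB) (hX : 0 ≤ X) (hY : 1 ≤ Y)
    (hW : ∑ j ∈ Finset.range (J + 1), W j ≤ 2) (hJ : (J : ℝ) + 1 ≤ 2 * X) :
    ∑ j ∈ Finset.range (J + 1), CD * (X * Y * W j * (CA / k + CB) + 1) ≤
      CD * (2 * CA + 2 * CB + 2) / k * X * Y := by
  have h1 : ∑ j ∈ Finset.range (J + 1), CD * (X * Y * W j * (CA / k + CB) + 1) =
      CD * (X * Y * (CA / k + CB) * (∑ j ∈ Finset.range (J + 1), W j) + ((J : ℝ) + 1)) := by
    rw [← Finset.mul_sum, Finset.sum_add_distrib, Finset.sum_const, Finset.card_range,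
      nsmul_eq_mul, Finset.mul_sum]
    push_cast
    congr 2
    · refine Finset.sum_congr rfl fun j _ => ?_
      ring
    · ring
  rw [h1]
  have hXY : 0 ≤ X * Y := mul_nonneg hX (by linarith)
  have hc : 0 ≤ X * Y * (CA / k + CB) := by positivity
  have h2 := mul_le_mul_of_nonneg_left hW hc
  have h3 : X ≤ X * Y := le_mul_of_one_le_right hX hY
  have h4 : X * Y ≤ X * Y / k := by
    rw [le_div_iff₀ hk]
    exact mul_le_of_le_one_right hXY hk1
  have h5 : CB * (X * Y) ≤ CB * (X * Y / k) := mul_le_mul_of_nonneg_left h4 hCB.le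
  have h6 : X * Y * (CA / k + CB) * 2 = 2 * CA * (X * Y / k) + 2 * (CB * (X * Y)) := by ring
  have h7 : CD * (2 * CA + 2 * CB + 2) / k * X * Y =
      CD * (2 * CA * (X * Y / k) + 2 * (CB * (X * Y / k)) + 2 * (X * Y / k)) := by ring
  rw [h7]
  apply mul_le_mul_of_nonneg_left _ hCD.le
  rw [h6] at h2
  linarith

/-- MOF. -/
theorem mof (hPWI : PwiStatement) (hPID : PidStatement) (hCFB : CfbStatement)
    (hDMV : DmvStatement) (hNRA : NraStatement) (hNRB : NrbStatement) (hSCL : SclStatement)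
    (hZf : ZfacStatement) (hDD : DDStatement) : MofStatement := by
  classical
  intro th c1 c2 hth0 hth
  obtain ⟨T1, hT1, hpid⟩ := hPID th c1 c2 hth0 hth
  obtain ⟨T2, hT2, hcfb⟩ := hCFB th c1 c2 hth0 hth
  obtain ⟨CD, T3, hCD, hT3, hdmv⟩ := hDMV (1 - (th + 1 / 10)) (by linarith) (by linarith)
  obtain ⟨CA, T4, hCA, hT4, hnra⟩ := hNRA th c1 c2 hth0 hth
  obtain ⟨CB, T5, hCB, hT5, hnrb⟩ := hNRB
  obtain ⟨T6, hT6, hscl⟩ := hSCL
  obtain ⟨T7, hT7⟩ := Filter.eventually_atTop.1 ((hDD.2.1 (1 / 2) (by norm_num)).and hDD.2.2.1)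
  refine ⟨Real.exp 4 * (CD * (2 * CA + 2 * CB + 2)),
    max T1 (max T2 (max T3 (max T4 (max T5 (max T6 (max T7 16)))))), by positivity,
    lt_max_of_lt_left hT1, fun T hT k hk hk1 => ?_⟩
  simp only [max_le_iff] at hT
  obtain ⟨h1T, h2T, h3T, h4T, h5T, h6T, h7T, h16⟩ := hT
  obtain ⟨s1, s2, s3, s4, s5, s6, s7, s8⟩ := hscl T h6T
  obtain ⟨d1, -, -, d2, -⟩ := hT7 T h7T
  have hT0 : 0 < T := by linarith
  have hT1' : 1 ≤ T := by linarith
  have hlog1 : 1 ≤ Real.log T := by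
    rw [Real.le_log_iff_exp_le hT0]
    have := Real.exp_one_lt_d9
    linarith
  have hcG1 : 1 ≤ cG T := by
    unfold cG
    have hpi := Real.pi_lt_d2
    have hsq : Real.sqrt Real.pi < 2 := by
      rw [show (2 : ℝ) = Real.sqrt 4 by
        rw [show (4 : ℝ) = 2 ^ 2 by norm_num]; exact (Real.sqrt_sq (by norm_num)).symm]
      exact Real.sqrt_lt_sqrt Real.pi_pos.le (by linarith)
    have hsp : 0 < Real.sqrt Real.pi := Real.sqrt_pos.mpr Real.pi_pos
    rw [le_div_iff₀ (by positivity)]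
    have h4 : (4 : ℝ) ≤ T ^ (1 - 1 / 2 : ℝ) := by
      have : (4 : ℝ) = (16 : ℝ) ^ (1 / 2 : ℝ) := by
        rw [show (16 : ℝ) = 4 ^ (2 : ℝ) by norm_num, ← Real.rpow_mul (by norm_num)]
        norm_num
      rw [this, show (1 - 1 / 2 : ℝ) = 1 / 2 by norm_num]
      exact Real.rpow_le_rpow (by norm_num) h16 (by norm_num)
    linarith
  set X : ℝ := cG T * Real.log T with hX
  have hX1 : Real.log T ≤ X := le_mul_of_one_le_left (by linarith) hcG1
  have hX0 : 0 ≤ X := by linarith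
  set Y : ℝ := Real.log T ^ (k ^ 2) with hY
  have hY1 : 1 ≤ Y := Real.one_le_rpow hlog1 (by positivity)
  have hll : ll T ≤ Real.log T := by
    unfold ll
    have := Real.log_le_sub_one_of_pos (by linarith : (0 : ℝ) < Real.log T)
    linarith
  have hJX : (JJ T : ℝ) + 1 ≤ 2 * X := by linarith
  have hRpos : ∀ j, j < JJ T → 1 ≤ RJ T j := fun j hj => (s5 j hj).1
  have hRr : ∀ j, j < JJ T + 1 → 1 ≤ RJ T j ^ (2 * rj T j) := by
    intro j hj
    unfold rj
    split_ifs with h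
    · exact one_le_pow₀ (hRpos j h)
    · simp
  have hWnn : ∀ j, j < JJ T + 1 → 0 ≤ wj T j := by
    intro j hj
    unfold wj
    split_ifs with h
    · exact (s3 j h).1.le
    · exact zero_le_one
  have hWsum : ∑ j ∈ Finset.range (JJ T + 1), wj T j ≤ 2 := by
    rw [Finset.sum_range_succ]
    have h1 : ∑ j ∈ Finset.range (JJ T), wj T j = ∑ j ∈ Finset.range (JJ T), dl T j := by
      refine Finset.sum_congr rfl fun j hj => ?_
      rw [Finset.mem_range] at hj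
      unfold wj
      rw [if_pos hj]
    have h2 : wj T (JJ T) = 1 := by
      unfold wj
      rw [if_neg (lt_irrefl _)]
    rw [h1, h2]
    linarith
  set Z := (hZf.2.2.2.2.2.2 T).toFinset with hZ
  set μ : ℝ → ℝ := fun γ => (mz γ : ℝ) * wt T γ with hμ
  have hμ0 : ∀ γ, 0 ≤ μ γ := fun γ => mul_nonneg (Nat.cast_nonneg _) (Real.exp_pos _).le
  set N1 : ℝ := T ^ (th + 1 / 10) with hN1
  have hexpo : T ^ (1 - (1 - (th + 1 / 10))) = N1 := by
    rw [hN1]; congr 1; ring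
  -- the Dirichlet polynomials
  set dA : ℕ → ℝ → ℂ := fun j γ =>
    dpoly (bet th c1 c2 T * gA (1 - k) T j (rj T j)) N1 (1 / 2 + γ * I) with hdA
  set dB : ℕ → ℝ → ℂ := fun j γ =>
    dpoly (gA (-k) T j (rj T j)) N1 (1 / 2 + γ * I) with hdB
  have hak : |1 - k| ≤ 1 := by rw [abs_le]; constructor <;> linarith
  have hbk : |-k| ≤ 1 := by rw [abs_le]; constructor <;> linarith
  have hIcc : Finset.Icc 1 ⌊N1⌋₊ ⊆ Finset.Icc 1 ⌊T⌋₊ := by
    apply Finset.Icc_subset_Icc_right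
    apply Nat.floor_le_floor
    calc N1 ≤ T ^ (1 : ℝ) := Real.rpow_le_rpow_of_exponent_le hT1' (by linarith)
      _ = T := Real.rpow_one T
  have hSA : ∀ j, j < JJ T + 1 → ∑ γ ∈ Z, μ γ * ‖dA j γ‖ ^ 2 ≤
      CD * (X * (CA / k ^ 2 * Y * wj T j * RJ T j ^ (2 * rj T j)) + 1) := by
    intro j hj
    have h1 := hdmv T h3T (bet th c1 c2 T * gA (1 - k) T j (rj T j))
      (fun n => (hcfb T h2T (1 - k) j hak (by omega) n).1.1)
    rw [hexpo, finsum_mem_eq_finite_toFinset_sum _ (hZf.2.2.2.2.2.2 T)] at h1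
    refine h1.trans ?_
    apply mul_le_mul_of_nonneg_left _ hCD.le
    apply add_le_add_left
    apply mul_le_mul_of_nonneg_left _ hX0
    refine le_trans (Finset.sum_le_sum_of_subset_of_nonneg hIcc (fun n _ _ => by positivity)) ?_
    exact hnra T h4T k j hk hk1 (by omega)
  have hSB : ∀ j, j < JJ T + 1 → ∑ γ ∈ Z, μ γ * ‖dB j γ‖ ^ 2 ≤
      CD * (X * (CB * Y * wj T j * RJ T j ^ (2 * rj T j)) + 1) := by
    intro j hj
    have h1 := hdmv T h3T (gA (-k) T j (rj T j))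
      (fun n => (hcfb T h2T (-k) j hbk (by omega) n).2.1)
    rw [hexpo, finsum_mem_eq_finite_toFinset_sum _ (hZf.2.2.2.2.2.2 T)] at h1
    refine h1.trans ?_
    apply mul_le_mul_of_nonneg_left _ hCD.le
    apply add_le_add_left
    apply mul_le_mul_of_nonneg_left _ hX0
    refine le_trans (Finset.sum_le_sum_of_subset_of_nonneg hIcc (fun n _ _ => by positivity)) ?_
    exact hnrb T h5T k j hk hk1 (by omega)
  -- the pointwise inequality
  have hpt : ∀ γ : ℝ, ‖MM th c1 c2 T (1 / 2 + γ * I)‖ ^ (2 * k) ≤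
      Real.exp 4 * ∑ j ∈ Finset.range (JJ T + 1),
        (k * ‖dA j γ‖ ^ 2 + (1 - k) * ‖dB j γ‖ ^ 2) / RJ T j ^ (2 * rj T j) := by
    intro γ
    have h1 := hPWI (JJ T) (fun i => PS (SS T i) (1 / 2 + γ * I)) (RJ T) (KJ T) (rJ T)
      (MM th c1 c2 T (1 / 2 + γ * I)) k hk hk1 (fun i hi => ⟨(s5 i hi).1, (s5 i hi).2.1⟩)
    refine h1.trans ?_
    have hnn : ∀ j ∈ Finset.range (JJ T + 1), 0 ≤
        (k * ‖MM th c1 c2 T (1 / 2 + γ * I) * ∏ i ∈ Finset.range j, te (KJ T i)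
            (((1 - k : ℝ) : ℂ) * PS (SS T i) (1 / 2 + γ * I))‖ ^ 2 +
          (1 - k) * ‖∏ i ∈ Finset.range j, te (KJ T i)
            (((-k : ℝ) : ℂ) * PS (SS T i) (1 / 2 + γ * I))‖ ^ 2) *
        (if j < JJ T then (‖PS (SS T j) (1 / 2 + γ * I)‖ / RJ T j) ^ (2 * rJ T j) else 1) := by
      intro j _
      have h1k : 0 ≤ 1 - k := by linarith
      apply mul_nonneg (by positivity)
      split_ifs with h
      · have := hRpos j h
        positivity
      · exact zero_le_one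
    have hE : Real.exp (4 * ∑ i ∈ Finset.range (JJ T), Real.exp (-RJ T i)) ≤ Real.exp 4 := by
      apply Real.exp_le_exp.mpr
      linarith
    refine (mul_le_mul_of_nonneg_right hE (Finset.sum_nonneg hnn)).trans (le_of_eq ?_)
    congr 1
    refine Finset.sum_congr rfl fun j hj => ?_
    rw [Finset.mem_range] at hj
    rw [factor_eq T j _ (PS (SS T j) (1 / 2 + γ * I)) rfl]
    have e1 := (hpid T h1T (1 - k) j hak (by omega) (1 / 2 + γ * I)).1
    have e2 := (hpid T h1T (-k) j hbk (by omega) (1 / 2 + γ * I)).2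
    simp only [hdA, hdB, hN1]
    rw [e1, e2, mul_div_assoc', norm_mul _ (PS (SS T j) (1 / 2 + γ * I) ^ rj T j),
      norm_mul _ (PS (SS T j) (1 / 2 + γ * I) ^ rj T j), mul_pow, mul_pow]
    congr 1
    ring
  rw [finsum_mem_eq_finite_toFinset_sum _ (hZf.2.2.2.2.2.2 T)]
  have hsum : ∑ γ ∈ Z, μ γ * ‖MM th c1 c2 T (1 / 2 + γ * I)‖ ^ (2 * k) ≤
      Real.exp 4 * ∑ j ∈ Finset.range (JJ T + 1), CD * (X * Y * wj T j * (CA / k + CB) + 1) := by
    calc ∑ γ ∈ Z, μ γ * ‖MM th c1 c2 T (1 / 2 + γ * I)‖ ^ (2 * k) ≤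
        ∑ γ ∈ Z, μ γ * (Real.exp 4 * ∑ j ∈ Finset.range (JJ T + 1),
          (k * ‖dA j γ‖ ^ 2 + (1 - k) * ‖dB j γ‖ ^ 2) / RJ T j ^ (2 * rj T j)) :=
          Finset.sum_le_sum fun γ _ => mul_le_mul_of_nonneg_left (hpt γ) (hμ0 γ)
      _ = Real.exp 4 * ∑ j ∈ Finset.range (JJ T + 1),
          (k * (∑ γ ∈ Z, μ γ * ‖dA j γ‖ ^ 2) + (1 - k) * (∑ γ ∈ Z, μ γ * ‖dB j γ‖ ^ 2)) /
            RJ T j ^ (2 * rj T j) := by
          simp_rw [Finset.mul_sum]
          rw [Finset.sum_comm]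
          refine Finset.sum_congr rfl fun j _ => ?_
          rw [← Finset.sum_add_distrib, Finset.sum_div, Finset.mul_sum]
          refine Finset.sum_congr rfl fun γ _ => ?_
          ring
      _ ≤ _ := by
          apply mul_le_mul_of_nonneg_left _ (Real.exp_pos _).le
          refine Finset.sum_le_sum fun j hj => ?_
          rw [Finset.mem_range] at hj
          exact one_index hk hk1 hCD hCB hX0 (by linarith) (hWnn j hj) (hRr j hj)
            (hSA j hj) (hSB j hj)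
  refine hsum.trans ?_
  have hall := all_index (JJ T) (wj T) hk hk1 hCD hCA hCB hX0 hY1 hWsum hJX
  have hfin := mul_le_mul_of_nonneg_left hall (Real.exp_pos 4).le
  refine hfin.trans (le_of_eq ?_)
  ring

end Pool.Agent.Lib.MP_6bc78b_nt.MS.QZ.H70
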