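import Pool.Agent.Lib.MP_6bc78b_nt.MS.QZ.Iface3

/-! Module FIG: the final step of the Gaussian form (pattern: H63/Fi2.lean). -/

set_option autoImplicit false

open Complex Filter Topology MeasureTheory ArithmeticFunction

namespace Pool.Agent.Lib.MP_6bc78b_nt.MS.QZ.H70

open Pool.Agent.Lib.MP_6bc78b_nt Pool.Agent.Lib.MP_6bc78b_nt.MS
  Pool.Agent.Lib.MP_6bc78b_nt.MS.P1 Pool.Agent.Lib.MP_6bc78b_nt.MS.QZ

lemma fig_DD_pos {T : ℝ} (h : 1 < T) : 0 < DD T := by
  unfold DD
  exact div_pos (by linarith) (Real.rpow_pos_of_pos (Real.log_pos h) _)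

lemma fig_wt_pos (T γ : ℝ) : 0 < wt T γ := Real.exp_pos _

lemma fig_NZ_nonneg (T : ℝ) : 0 ≤ NZ T :=
  finsum_nonneg fun _ => finsum_nonneg fun _ => Nat.cast_nonneg _

/-- the elementary inequality for the pointwise bound -/
lemma fig_pt {x x' η : ℝ} (hx : x' < x) (hη : 0 < η) : ∃ X1 : ℝ, 40 ≤ X1 ∧ ∀ T γ z : ℝ,
    X1 ≤ T → T / 2 < γ → γ < 2 * T →
    η * Real.log T ≤ z * Real.exp (x' * Real.sqrt (ll T / 2)) →
    Real.log γ * Real.exp (-(x * Real.sqrt (Real.log (Real.log γ) / 2))) ≤ z := by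
  set R : ℝ := (|x'| - Real.log (η / 2)) / (x - x') with hR
  refine ⟨40 + 2 * Real.exp (Real.exp (2 * R ^ 2)), ?_, ?_⟩
  · have := Real.exp_pos (Real.exp (2 * R ^ 2))
    linarith
  intro T γ z hT h1 h2 hz
  have hEE := Real.exp_pos (Real.exp (2 * R ^ 2))
  have hT40 : 40 ≤ T := by linarith
  have hγE : Real.exp (Real.exp (2 * R ^ 2)) ≤ γ := by linarith
  have hγ : 20 < γ := by linarith
  have hl1 : Real.exp (2 * R ^ 2) ≤ Real.log γ := by
    rw [Real.le_log_iff_exp_le (by linarith)]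
    exact hγE
  have hlγ0 : 0 < Real.log γ := (Real.exp_pos _).trans_le hl1
  have hll : 2 * R ^ 2 ≤ Real.log (Real.log γ) := by
    rw [Real.le_log_iff_exp_le hlγ0]
    exact hl1
  have hlT0 : 0 < Real.log T := Real.log_pos (by linarith)
  have hlT : Real.log γ ≤ 2 * Real.log T := by
    have h4 : Real.log γ ≤ Real.log (T ^ 2) := Real.log_le_log (by linarith) (by nlinarith)
    rw [Real.log_pow] at h4
    exact_mod_cast h4
  have hTγ : Real.log T ≤ 2 * Real.log γ := by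
    have h4 : Real.log T ≤ Real.log (2 * γ) := Real.log_le_log (by linarith) (by linarith)
    rw [Real.log_mul (by norm_num) (by linarith)] at h4
    have h5 : Real.log 2 ≤ Real.log γ := Real.log_le_log (by norm_num) (by linarith)
    linarith
  have hl2 : Real.log 2 ≤ 1 := by
    have := Real.log_two_lt_d9
    linarith
  have ha : Real.log (Real.log T) ≤ Real.log (Real.log γ) + 1 := by
    have h4 : Real.log (Real.log T) ≤ Real.log (2 * Real.log γ) := Real.log_le_log hlT0 hTγ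
    rw [Real.log_mul (by norm_num) hlγ0.ne'] at h4
    linarith
  have hb : Real.log (Real.log γ) ≤ Real.log (Real.log T) + 1 := by
    have h4 : Real.log (Real.log γ) ≤ Real.log (2 * Real.log T) := Real.log_le_log hlγ0 hlT
    rw [Real.log_mul (by norm_num) hlT0.ne'] at h4
    linarith
  set s := Real.sqrt (Real.log (Real.log γ) / 2) with hs
  set t := Real.sqrt (ll T / 2) with ht
  have hs0 : 0 ≤ s := Real.sqrt_nonneg _
  have ht0 : 0 ≤ t := Real.sqrt_nonneg _
  have hss : s ^ 2 = Real.log (Real.log γ) / 2 := by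
    rw [hs, Real.sq_sqrt]
    nlinarith [sq_nonneg R]
  have hts : t ≤ s + 1 := by
    rw [ht, Real.sqrt_le_left (by positivity)]
    unfold ll
    nlinarith
  have hst : s ≤ t + 1 := by
    rw [hs, Real.sqrt_le_left (by positivity)]
    have h5 : ll T / 2 ≤ t ^ 2 := by
      by_cases h6 : 0 ≤ ll T / 2
      · rw [ht, Real.sq_sqrt h6]
      · nlinarith [sq_nonneg t]
    have h7 : ll T = Real.log (Real.log T) := rfl
    nlinarith
  have hRs : R ≤ s := by
    rw [hs]
    apply Real.le_sqrt_of_sq_le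
    linarith
  have hz0 : 0 ≤ z := by
    by_contra h
    have h4 : z * Real.exp (x' * t) < 0 := mul_neg_of_neg_of_pos (not_le.1 h) (Real.exp_pos _)
    have h5 : 0 < η * Real.log T := mul_pos hη hlT0
    linarith
  have hxt : x' * t ≤ x' * s + |x'| := by
    have h4 : |t - s| ≤ 1 := by
      rw [abs_le]
      constructor <;> linarith
    have h5 : x' * (t - s) ≤ |x'| * 1 :=
      (le_abs_self _).trans ((abs_mul _ _).le.trans
        (mul_le_mul_of_nonneg_left h4 (abs_nonneg _)))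
    linarith
  have e3 : η / 2 * Real.log γ ≤ z * Real.exp (x' * s + |x'|) := by
    have h4 := mul_le_mul_of_nonneg_left hlT hη.le
    have h5 := mul_le_mul_of_nonneg_left (Real.exp_le_exp.2 hxt) hz0
    linarith
  have hRx : |x'| - Real.log (η / 2) ≤ (x - x') * s := by
    have h4 : R * (x - x') = |x'| - Real.log (η / 2) := by
      rw [hR, div_mul_cancel₀]
      linarith
    nlinarith [mul_le_mul_of_nonneg_right hRs (show (0 : ℝ) ≤ x - x' by linarith)]
  have e4 : Real.log γ ≤ z * Real.exp (x * s) := by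
    have hη2 : Real.exp (Real.log (η / 2)) = η / 2 := Real.exp_log (by positivity)
    have h5 : x' * s + |x'| ≤ x * s + Real.log (η / 2) := by linarith
    have h6 : z * Real.exp (x' * s + |x'|) ≤ z * (Real.exp (x * s) * (η / 2)) := by
      refine mul_le_mul_of_nonneg_left ?_ hz0
      rw [← hη2, ← Real.exp_add]
      exact Real.exp_le_exp.2 h5
    have h7 : η / 2 * Real.log γ ≤ η / 2 * (z * Real.exp (x * s)) := by
      calc η / 2 * Real.log γ ≤ _ := e3
        _ ≤ _ := h6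
        _ = _ := by ring
    exact le_of_mul_le_mul_left h7 (by positivity)
  rw [Real.exp_neg, ← div_eq_mul_inv, div_le_iff₀ (Real.exp_pos _)]
  exact e4

/-- module FIG -/
theorem fig (h1 : FicStatement) (h2 : TygStatement) (h3 : QfcStatement) (h4 : GlbStatement)
    (h5 : NmqStatement) (h6 : DhzStatement) (h7 : ZfacStatement) : QgStatement := by
  classical
  obtain ⟨z1, z2, z3, z4, z5, z6, z7⟩ := h7
  intro x ε hε
  set e : ℝ := ε / 8 with he
  have he0 : 0 < e := by positivity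
  have hQ : Qf (x - e) ≤ Qf x + e := by
    have := (h3 (x - e) x (by linarith)).2.2.1
    linarith
  by_cases hq0 : 19 / 27 - Qf x - ε / 2 ≤ 0
  · refine ⟨0, fun T _ => ?_⟩
    have h8 : (19 / 27 - Qf x - ε) * NZ T ≤ 0 :=
      mul_nonpos_of_nonpos_of_nonneg (by linarith) (fig_NZ_nonneg T)
    exact h8.trans (Nat.cast_nonneg _)
  rw [not_le] at hq0
  obtain ⟨th, c1, c2, hth0, hth, hm1, hm2, hq⟩ := h5 e he0
  obtain ⟨A, η, hA, hη, hη1, hG⟩ := h4 th c1 c2 e hth0 hth hm1 he0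
  have hty := h2 th c1 c2 (x - e) e hth0 hth he0
  set H : ℝ → Set ℝ := fun T => {γ | γ ∈ Gset th c1 c2 A η T ∧
    ‖MM th c1 c2 T (1 / 2 + γ * I)‖ ≤ Real.exp ((x - e) * Real.sqrt (ll T / 2))} with hH
  have hev : ∀ᶠ T : ℝ in atTop, H T ⊆ Gset th c1 c2 A η T ∧
      (19 / 27 - Qf x - ε / 2) * (cG T * Real.log T) ≤ ∑ᶠ γ ∈ H T, wt T γ := by
    filter_upwards [hG, hty, eventually_gt_atTop 1] with T hT hT2 hT1
    refine ⟨fun γ hγ => hγ.1, ?_⟩
    have hL : 0 < Real.log T := Real.log_pos hT1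
    have hDp : 0 < DD T := fig_DD_pos hT1
    have hpi : 0 < Real.sqrt Real.pi := Real.sqrt_pos.2 Real.pi_pos
    have hcG : 0 < cG T := by unfold cG; positivity
    have hGf : (Gset th c1 c2 A η T).Finite := (z7 T).subset fun γ hγ => hγ.1
    have hHf : (H T).Finite := hGf.subset fun γ hγ => hγ.1
    set B : Set ℝ := {γ | γ ∈ zset T ∧
      Real.exp ((x - e) * Real.sqrt (ll T / 2)) < ‖MM th c1 c2 T (1 / 2 + γ * I)‖} with hB
    have hBf : B.Finite := (z7 T).subset fun γ hγ => hγ.1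
    have e1 : ∑ᶠ γ ∈ Gset th c1 c2 A η T, wt T γ ≤
        ∑ᶠ γ ∈ H T, wt T γ + ∑ᶠ γ ∈ B, (mz γ : ℝ) * wt T γ := by
      rw [finsum_mem_eq_finite_toFinset_sum _ hGf, finsum_mem_eq_finite_toFinset_sum _ hHf,
        finsum_mem_eq_finite_toFinset_sum _ hBf]
      have e2 : ∑ γ ∈ hBf.toFinset, wt T γ ≤ ∑ γ ∈ hBf.toFinset, (mz γ : ℝ) * wt T γ := by
        refine Finset.sum_le_sum fun γ hγ => ?_
        have hγ' : γ ∈ B := by simpa using hγ
        have hm : (1 : ℝ) ≤ mz γ := by exact_mod_cast z3 γ hγ'.1.2.2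
        nlinarith [fig_wt_pos T γ]
      refine le_trans ?_ (add_le_add_right e2 _)
      have hsub : hGf.toFinset ⊆ hHf.toFinset ∪ hBf.toFinset := by
        intro γ hγ
        have hγ' : γ ∈ Gset th c1 c2 A η T := by simpa using hγ
        rw [Finset.mem_union]
        by_cases hc : ‖MM th c1 c2 T (1 / 2 + γ * I)‖ ≤
            Real.exp ((x - e) * Real.sqrt (ll T / 2))
        · left
          rw [Set.Finite.mem_toFinset]
          exact ⟨hγ', hc⟩
        · right
          rw [Set.Finite.mem_toFinset]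
          exact ⟨hγ'.1, not_le.1 hc⟩
      refine (Finset.sum_le_sum_of_subset_of_nonneg hsub
        fun γ _ _ => (fig_wt_pos T γ).le).trans ?_
      rw [← Finset.sum_union_inter]
      have : 0 ≤ ∑ γ ∈ hHf.toFinset ∩ hBf.toFinset, wt T γ :=
        Finset.sum_nonneg fun γ _ => (fig_wt_pos T γ).le
      linarith
    have hp : 0 ≤ cG T * Real.log T := by positivity
    have e3 := mul_le_mul_of_nonneg_right hq hp
    have e6 := mul_le_mul_of_nonneg_right hQ hp
    have hT3 : ∑ᶠ γ ∈ B, (mz γ : ℝ) * wt T γ ≤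
      (Qf (x - e) + e) * (cG T * Real.log T) := hT2
    have e7 : ε = 8 * e := by rw [he]; ring
    rw [e7]
    nlinarith
  obtain ⟨X1, hX1, hpt⟩ := fig_pt (x := x) (x' := x - e) (η := η) (by linarith) hη
  obtain ⟨G, hG1, C, T0, hC, hT0⟩ := h1 th c1 c2 (19 / 27 - Qf x - ε / 2) A η (ε / 2) H hth0 hth
    hq0 hA hη hη1 (by positivity) hev X1
  refine ⟨T0, fun T hT => ?_⟩
  have h9 := (hT0 T hT).1
  have h10 : (19 / 27 - Qf x - ε) * NZ T = (19 / 27 - Qf x - ε / 2 - ε / 2) * NZ T := by ring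
  rw [h10]
  refine h9.trans ?_
  have hfin : {γ : ℝ | 3 < γ ∧ γ ≤ T ∧ hardyZ γ = 0 ∧
      Real.log γ * Real.exp (-(x * Real.sqrt (Real.log (Real.log γ) / 2))) ≤
        |deriv hardyZ γ|}.Finite :=
    (z6 T).subset fun γ hγ => ⟨by linarith [hγ.1], hγ.2.1, (z1 γ).1 hγ.2.2.1⟩
  have hsub : {γ : ℝ | γ ∈ G ∧ γ ≤ T} ⊆ {γ : ℝ | 3 < γ ∧ γ ≤ T ∧ hardyZ γ = 0 ∧
      Real.log γ * Real.exp (-(x * Real.sqrt (Real.log (Real.log γ) / 2))) ≤
        |deriv hardyZ γ|} := by
    intro γ hγ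
    obtain ⟨g1, g2, g3, T', hT', hγT⟩ := hG1 γ hγ.1
    obtain ⟨⟨q1, q2, q3⟩, q4⟩ := hγT
    refine ⟨by linarith [q1.1], hγ.2, g2, ?_⟩
    refine hpt T' γ _ hT' q1.1 q1.2.1 ?_
    rw [h6 γ g2]
    refine q3.trans ?_
    unfold vv
    rw [norm_mul]
    exact mul_le_mul_of_nonneg_left q4 (norm_nonneg _)
  exact_mod_cast Set.ncard_le_ncard hsub hfin

end Pool.Agent.Lib.MP_6bc78b_nt.MS.QZ.H70
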