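import Pool.Agent.Lib.MP_6bc78b_nt.MS.QZ.H70.DMVAux

/-! Project MS, Part QZ, module DMV: mean values over the zeros. -/

set_option autoImplicit false

open Complex Filter Topology MeasureTheory ArithmeticFunction

namespace Pool.Agent.Lib.MP_6bc78b_nt.MS.QZ.H70

open Pool.Agent.Lib.MP_6bc78b_nt.MS Pool.Agent.Lib.MP_6bc78b_nt.MS.P1

/-- The mean value on the critical line, coefficients of any sign. -/
lemma mean_le (T δ : ℝ) (hT : 1 ≤ T) (hδ : 0 < δ) (d : ArithmeticFunction ℝ)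
    (hd : ∀ n, |d n| ≤ T ^ (3 : ℝ))
    (hTH : ∀ g : ℂ → ℂ, AEStronglyMeasurable (fun t : ℝ => g (((1 / 2 : ℝ) : ℂ) + t * I)) volume →
      (∀ t : ℝ, ‖g (((1 / 2 : ℝ) : ℂ) + t * I)‖ ≤ T ^ (12 : ℝ) * (1 + |t|) ^ (12 : ℝ)) →
        Integrable (fun t : ℝ => g (((1 / 2 : ℝ) : ℂ) + t * I) *
          WW T (((1 / 2 : ℝ) : ℂ) + t * I)))
    (hM : ∀ b : ℕ → ℝ, (∀ n, 0 ≤ b n ∧ b n ≤ T ^ (12 : ℝ)) →
      (1 / (2 * Real.pi)) * ∫ t : ℝ, ‖∑ n ∈ Finset.Icc 1 ⌊T ^ (1 - δ)⌋₊,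
        (b n : ℂ) * (n : ℂ) ^ (-(1 / 2 + t * I : ℂ))‖ ^ 2 * MS.wt T t ≤
      cG T * ∑ n ∈ Finset.Icc 1 ⌊T ^ (1 - δ)⌋₊, b n ^ 2 / (n : ℝ) + 1 / T) :
    (1 / (2 * Real.pi)) * ∫ t : ℝ, ‖dpoly d (T ^ (1 - δ)) (1 / 2 + t * I)‖ ^ 2 * MS.wt T t ≤
      2 * (cG T * ∑ n ∈ Finset.Icc 1 ⌊T ^ (1 - δ)⌋₊, d n ^ 2 / (n : ℝ)) + 4 / T := by
  have hT0 : 0 < T := by linarith
  set N := ⌊T ^ (1 - δ)⌋₊ with hN
  have hNT : (N : ℝ) ≤ T := floor_le_T T δ hT hδ
  have h312 : T ^ (3 : ℝ) ≤ T ^ (12 : ℝ) := Real.rpow_le_rpow_of_exponent_le hT (by norm_num)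
  set b1 : ℕ → ℝ := fun n => max (d n) 0 with hb1
  set b2 : ℕ → ℝ := fun n => max (-d n) 0 with hb2
  have hb1n : ∀ n, 0 ≤ b1 n ∧ b1 n ≤ T ^ (3 : ℝ) := fun n =>
    ⟨le_max_right _ _, max_le ((le_abs_self _).trans (hd n)) (by positivity)⟩
  have hb2n : ∀ n, 0 ≤ b2 n ∧ b2 n ≤ T ^ (3 : ℝ) := fun n =>
    ⟨le_max_right _ _, max_le ((neg_le_abs _).trans (hd n)) (by positivity)⟩
  set D1 : ℂ → ℂ := fun s => ∑ n ∈ Finset.Icc 1 N, ((b1 n : ℝ) : ℂ) * (n : ℂ) ^ (-s) with hD1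
  set D2 : ℂ → ℂ := fun s => ∑ n ∈ Finset.Icc 1 N, ((b2 n : ℝ) : ℂ) * (n : ℂ) ^ (-s) with hD2
  have hD : ∀ s, dpoly d (T ^ (1 - δ)) s = D1 s - D2 s := by
    intro s
    simp only [hD1, hD2, dpoly]
    rw [← Finset.sum_sub_distrib]
    refine Finset.sum_congr rfl fun n _ => ?_
    rw [← sub_mul, ← Complex.ofReal_sub]
    congr 2
    have : b1 n - b2 n = d n := by
      simp only [hb1, hb2]
      rcases le_total 0 (d n) with h | h
      · rw [max_eq_left h, max_eq_right (by linarith)]; ring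
      · rw [max_eq_right h, max_eq_left (by linarith)]; ring
    rw [this]
  have hcont : ∀ b : ℕ → ℝ, Continuous (fun t : ℝ => ∑ n ∈ Finset.Icc 1 N,
      ((b n : ℝ) : ℂ) * (n : ℂ) ^ (-(1 / 2 + t * I : ℂ))) := by
    intro b
    refine continuous_finsetSum _ fun n hn => ?_
    rw [Finset.mem_Icc] at hn
    have hn' : (n : ℂ) ≠ 0 := by exact_mod_cast (by omega : n ≠ 0)
    apply Continuous.const_mul
    exact Continuous.const_cpow (by fun_prop) (Or.inl hn')
  have hint : ∀ b : ℕ → ℝ, (∀ n, 0 ≤ b n ∧ b n ≤ T ^ (3 : ℝ)) →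
      Integrable (fun t : ℝ => ‖∑ n ∈ Finset.Icc 1 N,
        ((b n : ℝ) : ℂ) * (n : ℂ) ^ (-(1 / 2 + t * I : ℂ))‖ ^ 2 * MS.wt T t) := by
    intro b hb
    have hhalf : ∀ t : ℝ, (((1 / 2 : ℝ) : ℂ) + t * I : ℂ) = 1 / 2 + t * I := by
      intro t; push_cast; rfl
    have h1 := hTH (fun s => (((‖∑ n ∈ Finset.Icc 1 N,
        ((b n : ℝ) : ℂ) * (n : ℂ) ^ (-s)‖ ^ 2 : ℝ)) : ℂ)) (by
      simp_rw [hhalf]
      exact (Complex.continuous_ofReal.comp ((hcont b).norm.pow 2)).aestronglyMeasurable) (by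
      intro t
      rw [Complex.norm_real, Real.norm_eq_abs, abs_of_nonneg (by positivity)]
      have h2 := sum_norm_le b N T hT hNT (fun n => by
        rw [abs_of_nonneg (hb n).1]; exact (hb n).2) (((1 / 2 : ℝ) : ℂ) + t * I) (by
          simp; norm_num)
      have h3 : (1 : ℝ) ≤ (1 + |t|) ^ (12 : ℝ) :=
        Real.one_le_rpow (by linarith [abs_nonneg t]) (by norm_num)
      calc ‖∑ n ∈ Finset.Icc 1 N, ((b n : ℝ) : ℂ) *
            (n : ℂ) ^ (-(((1 / 2 : ℝ) : ℂ) + t * I))‖ ^ 2 ≤ (T ^ (5 : ℝ)) ^ 2 :=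
            pow_le_pow_left₀ (norm_nonneg _) h2 2
        _ = T ^ (10 : ℝ) := by
            rw [← Real.rpow_natCast, ← Real.rpow_mul hT0.le]; norm_num
        _ ≤ T ^ (12 : ℝ) := Real.rpow_le_rpow_of_exponent_le hT (by norm_num)
        _ ≤ T ^ (12 : ℝ) * (1 + |t|) ^ (12 : ℝ) :=
            le_mul_of_one_le_right (by positivity) h3)
    have h4 := h1.re
    refine h4.congr (Filter.Eventually.of_forall fun t => ?_)
    simp only
    rw [P5.H23.WW_half]
    simp only [hhalf]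
    rw [← Complex.ofReal_mul]
    exact Complex.ofReal_re _
  have i1 := hint b1 hb1n
  have i2 := hint b2 hb2n
  have hle : ∫ t : ℝ, ‖dpoly d (T ^ (1 - δ)) (1 / 2 + t * I)‖ ^ 2 * MS.wt T t ≤
      ∫ t : ℝ, (2 * (‖D1 (1 / 2 + t * I)‖ ^ 2 * MS.wt T t) +
        2 * (‖D2 (1 / 2 + t * I)‖ ^ 2 * MS.wt T t)) := by
    refine integral_mono_of_nonneg (Filter.Eventually.of_forall fun t => ?_)
      ((i1.const_mul 2).add (i2.const_mul 2)) (Filter.Eventually.of_forall fun t => ?_)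
    · exact mul_nonneg (by positivity) (Real.exp_pos _).le
    · have hw : 0 ≤ MS.wt T t := (Real.exp_pos _).le
      simp only
      rw [hD]
      have h1 := norm_sub_le (D1 (1 / 2 + t * I)) (D2 (1 / 2 + t * I))
      have h2 : ‖D1 (1 / 2 + t * I) - D2 (1 / 2 + t * I)‖ ^ 2 ≤
          2 * ‖D1 (1 / 2 + t * I)‖ ^ 2 + 2 * ‖D2 (1 / 2 + t * I)‖ ^ 2 := by
        have h3 : ‖D1 (1 / 2 + t * I) - D2 (1 / 2 + t * I)‖ ^ 2 ≤
            (‖D1 (1 / 2 + t * I)‖ + ‖D2 (1 / 2 + t * I)‖) ^ 2 :=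
          pow_le_pow_left₀ (norm_nonneg _) h1 2
        have h4 := sq_nonneg (‖D1 (1 / 2 + t * I)‖ - ‖D2 (1 / 2 + t * I)‖)
        linarith
      calc ‖D1 (1 / 2 + t * I) - D2 (1 / 2 + t * I)‖ ^ 2 * MS.wt T t ≤
          (2 * ‖D1 (1 / 2 + t * I)‖ ^ 2 + 2 * ‖D2 (1 / 2 + t * I)‖ ^ 2) * MS.wt T t :=
            mul_le_mul_of_nonneg_right h2 hw
        _ = _ := by ring
  rw [integral_add (i1.const_mul 2) (i2.const_mul 2), integral_const_mul,
    integral_const_mul] at hle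
  have m1 := hM b1 (fun n => ⟨(hb1n n).1, (hb1n n).2.trans h312⟩)
  have m2 := hM b2 (fun n => ⟨(hb2n n).1, (hb2n n).2.trans h312⟩)
  have hsum : ∑ n ∈ Finset.Icc 1 N, b1 n ^ 2 / (n : ℝ) + ∑ n ∈ Finset.Icc 1 N, b2 n ^ 2 / (n : ℝ)
      = ∑ n ∈ Finset.Icc 1 N, d n ^ 2 / (n : ℝ) := by
    rw [← Finset.sum_add_distrib]
    refine Finset.sum_congr rfl fun n _ => ?_
    rw [← add_div]
    congr 1
    simp only [hb1, hb2]
    rcases le_total 0 (d n) with h | h
    · rw [max_eq_left h, max_eq_right (by linarith)]; ring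
    · rw [max_eq_right h, max_eq_left (by linarith)]; ring
  have hpi : 0 < 1 / (2 * Real.pi) := by positivity
  have h5 := mul_le_mul_of_nonneg_left hle hpi.le
  rw [← hsum]
  have h6 : 1 / (2 * Real.pi) * (2 * ∫ t : ℝ, ‖D1 (1 / 2 + t * I)‖ ^ 2 * MS.wt T t) =
      2 * (1 / (2 * Real.pi) * ∫ t : ℝ, ‖D1 (1 / 2 + t * I)‖ ^ 2 * MS.wt T t) := by ring
  have h7 : 1 / (2 * Real.pi) * (2 * ∫ t : ℝ, ‖D2 (1 / 2 + t * I)‖ ^ 2 * MS.wt T t) =
      2 * (1 / (2 * Real.pi) * ∫ t : ℝ, ‖D2 (1 / 2 + t * I)‖ ^ 2 * MS.wt T t) := by ring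
  rw [mul_add, h6, h7] at h5
  have h8 : (4 : ℝ) / T = 2 * (1 / T) + 2 * (1 / T) := by ring
  rw [h8]
  linarith [m1, m2, h5]

/-- The part with `ζ'/ζ`. -/
lemma zeta_le (hLS : LSerStatement) (c T δ C : ℝ) (hc1 : 1 < c) (hcG : 0 < cG T)
    (hT : 1 ≤ T) (hδ : 0 < δ) (hKT : AN c La ≤ T)
    (hC : ∀ x : ℝ, 1 ≤ x → |∑ n ∈ Finset.Icc 1 ⌊x⌋₊, L.w1 n - Real.log x| ≤ C)
    (d : ArithmeticFunction ℝ) (hd : ∀ n, |d n| ≤ T ^ (3 : ℝ))
    (hET : ∀ a b : ℕ → ℂ,
      Summable (fun n : ℕ => ‖a n‖ * (n : ℝ) ^ (-c)) →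
      (∑' n : ℕ, ‖a n‖ * (n : ℝ) ^ (-c)) ≤ T ^ (12 : ℝ) → (∀ k, ‖b k‖ ≤ T ^ (12 : ℝ)) →
      ‖VI c (fun s => LSeries a s *
        (∑ k ∈ Finset.Icc 1 ⌊T ^ (1 - δ)⌋₊, b k * (k : ℂ) ^ (-(1 - s))) * WW T s) -
        (cG T : ℂ) * ∑ k ∈ Finset.Icc 1 ⌊T ^ (1 - δ)⌋₊, a k * b k / k‖ ≤ 1 / T) :
    (VI c (fun s => logDeriv riemannZeta s *
      (dpoly d (T ^ (1 - δ)) s * dpoly d (T ^ (1 - δ)) (1 - s)) * WW T s)).re ≤
      1 / T + cG T * ((Real.log T + C) *
        ∑ k ∈ Finset.Icc 1 ⌊T ^ (1 - δ)⌋₊, d k ^ 2 / k) := by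
  have hT0 : 0 < T := by linarith
  set N := ⌊T ^ (1 - δ)⌋₊ with hN
  have hNT : (N : ℝ) ≤ T := floor_le_T T δ hT hδ
  have h312 : T ^ (3 : ℝ) ≤ T ^ (12 : ℝ) := Real.rpow_le_rpow_of_exponent_le hT (by norm_num)
  obtain ⟨hALa, -, -⟩ := hLS.2.2.2.1 c hc1
  have hAd : ASum c (cut d N) := P5.H59.ASum_fin _ N (cut_supp d N) c
  obtain ⟨h4, h5, h6⟩ := hLS.2.2.2.2.1 c La (cut d N) hALa hAd
  have hANd : AN c (cut d N) ≤ T ^ (4 : ℝ) := by
    unfold AN
    rw [tsum_eq_sum (s := Finset.Icc 1 N)]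
    · have h1 : ∀ n ∈ Finset.Icc 1 N, |cut d N n| * (n : ℝ) ^ (-c) ≤ T ^ (3 : ℝ) := by
        intro n hn
        rw [Finset.mem_Icc] at hn
        have hn' : (1 : ℝ) ≤ n := by exact_mod_cast hn.1
        have h2 : (n : ℝ) ^ (-c) ≤ 1 := Real.rpow_le_one_of_one_le_of_nonpos hn' (by linarith)
        calc |cut d N n| * (n : ℝ) ^ (-c) ≤ T ^ (3 : ℝ) * 1 :=
              mul_le_mul ((abs_cut_le d N n).trans (hd n)) h2 (by positivity) (by positivity)
          _ = _ := mul_one _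
      refine (Finset.sum_le_sum h1).trans ?_
      rw [Finset.sum_const, Nat.card_Icc, nsmul_eq_mul, Nat.add_sub_cancel]
      calc (N : ℝ) * T ^ (3 : ℝ) ≤ T * T ^ (3 : ℝ) := by
            apply mul_le_mul_of_nonneg_right hNT; positivity
        _ = T ^ (1 : ℝ) * T ^ (3 : ℝ) := by rw [Real.rpow_one]
        _ = T ^ (4 : ℝ) := by rw [← Real.rpow_add hT0]; norm_num
    · intro n hn
      rcases Nat.eq_zero_or_pos n with h0 | h0
      · rw [h0]; simp
      · rw [cut_supp d N n (by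
          by_contra h1
          exact hn (Finset.mem_Icc.2 ⟨h0, by omega⟩))]
        simp
  have hANd0 : 0 ≤ AN c (cut d N) := tsum_nonneg (fun n => by positivity)
  have hnorm : ∀ n : ℕ, ‖(((La * cut d N) n : ℝ) : ℂ)‖ * (n : ℝ) ^ (-c) =
      |(La * cut d N) n| * (n : ℝ) ^ (-c) := by
    intro n
    rw [Complex.norm_real, Real.norm_eq_abs]
  have hA2 : AN c (La * cut d N) ≤ T ^ (12 : ℝ) := by
    refine h5.trans ?_
    calc AN c La * AN c (cut d N) ≤ T * T ^ (4 : ℝ) :=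
          mul_le_mul hKT hANd hANd0 hT0.le
      _ = T ^ (1 : ℝ) * T ^ (4 : ℝ) := by rw [Real.rpow_one]
      _ = T ^ (5 : ℝ) := by rw [← Real.rpow_add hT0]; norm_num
      _ ≤ T ^ (12 : ℝ) := Real.rpow_le_rpow_of_exponent_le hT (by norm_num)
  have he := hET (fun n => (((La * cut d N) n : ℝ) : ℂ))
    (fun j => ((d j : ℝ) : ℂ))
    (by simp_rw [hnorm]; exact h4) (by simp_rw [hnorm]; exact hA2) (fun j => by
      rw [Complex.norm_real, Real.norm_eq_abs]
      exact (hd j).trans h312)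
  have hre : ∀ t : ℝ, (c + t * I : ℂ).re = c := by intro t; simp
  have h1 : VI c (fun s => LSeries (fun n => (((La * cut d N) n : ℝ) : ℂ)) s *
      (∑ j ∈ Finset.Icc 1 N, ((d j : ℝ) : ℂ) *
        (j : ℂ) ^ (-(1 - s))) * WW T s) =
      - VI c (fun s => logDeriv riemannZeta s *
        (dpoly d (T ^ (1 - δ)) s * dpoly d (T ^ (1 - δ)) (1 - s)) * WW T s) := by
    rw [← ZBB.VI_neg]
    apply ZBB.VI_congr
    intro t
    have h2 : LSeries (fun n => (((La * cut d N) n : ℝ) : ℂ)) (c + t * I) =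
        (-logDeriv riemannZeta (c + t * I)) * dpoly d (T ^ (1 - δ)) (c + t * I) := by
      have h3 := h6 (c + t * I) (hre t)
      rw [hLS.1 _ (by rw [hre]; exact hc1), LS_cut] at h3
      exact h3
    have h4' : ∑ j ∈ Finset.Icc 1 N, ((d j : ℝ) : ℂ) * (j : ℂ) ^ (-(1 - (c + t * I))) =
        dpoly d (T ^ (1 - δ)) (1 - (c + t * I)) := rfl
    rw [h2, h4']
    ring
  rw [h1] at he
  set V := VI c (fun s => logDeriv riemannZeta s *
        (dpoly d (T ^ (1 - δ)) s * dpoly d (T ^ (1 - δ)) (1 - s)) * WW T s) with hV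
  have h2 : (cG T : ℂ) * ∑ j ∈ Finset.Icc 1 N, (((La * cut d N) j : ℝ) : ℂ) *
      ((d j : ℝ) : ℂ) / (j : ℂ) =
      ((cG T * ∑ j ∈ Finset.Icc 1 N, (La * cut d N) j * d j / j : ℝ) : ℂ) := by
    push_cast
    rfl
  rw [h2] at he
  have h3 := Complex.abs_re_le_norm (-V - ((cG T * ∑ j ∈ Finset.Icc 1 N,
        (La * cut d N) j * d j / j : ℝ) : ℂ))
  rw [Complex.sub_re, Complex.neg_re, Complex.ofReal_re] at h3
  have h7 := neg_le_abs (-V.re - cG T * ∑ j ∈ Finset.Icc 1 N, (La * cut d N) j * d j / j)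
  have h8 := diag_le C hC N d
  have hS0 : 0 ≤ ∑ k ∈ Finset.Icc 1 N, d k ^ 2 / (k : ℝ) :=
    Finset.sum_nonneg fun k _ => by positivity
  have h9 : Real.log N + C ≤ Real.log T + C := by
    rcases Nat.eq_zero_or_pos N with h0 | h0
    · rw [h0]; simp; exact Real.log_nonneg hT
    · have : (0 : ℝ) < N := by exact_mod_cast h0
      have := Real.log_le_log this hNT
      linarith
  have h10 : -(cG T * ∑ j ∈ Finset.Icc 1 N, (La * cut d N) j * d j / j) ≤
      cG T * ((Real.log T + C) * ∑ k ∈ Finset.Icc 1 N, d k ^ 2 / k) := by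
    rw [← mul_neg]
    apply mul_le_mul_of_nonneg_left _ hcG.le
    refine (neg_le_abs _).trans (h8.trans ?_)
    exact mul_le_mul_of_nonneg_right h9 hS0
  linarith

/-- DMV. -/
theorem dmv (hZ : ZeroSumStatement) (hTl : TailStatement) (hE : Edge1Statement)
    (hcho : OmAsympStatement) (hLS : LSerStatement) (hM : P5.MvfStatement)
    (hMov : P5.MovStatement) (hchi : ChiStatement) (hDD : DDStatement)
    (hMer : L.MerStatement) : DmvStatement := by
  classical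
  intro δ hδ0 hδ1
  obtain ⟨c, hc1, hc2⟩ : ∃ c : ℝ, 1 < c ∧ c < 3 / 2 := ⟨5 / 4, by norm_num, by norm_num⟩
  set A : ℝ := 12 with hA
  obtain ⟨C, hC0, hC⟩ := hcho
  obtain ⟨CM, hCM0, hCM, -⟩ := hMer
  obtain ⟨TM, hTM3, hMM⟩ := hM δ A hδ0
  have hev := ((hZ A c hc1 hc2).and ((hTl A c (by linarith) (by linarith)).and
    ((hTl A (1 / 2) (by norm_num) (by norm_num)).and
    ((hE (1 - δ) c A (by linarith) (by linarith) hc1 hc2).and
    ((hMov A c hc1 hc2).and hDD.2.2.1)))))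
  obtain ⟨T1, hT1⟩ := Filter.eventually_atTop.1 hev
  set K : ℝ := AN c La with hK
  refine ⟨10 + 2 * CM, max TM (max T1 (max 20 (max (2 * C) K))), by linarith, ?_, ?_⟩
  · have : (20 : ℝ) ≤ max TM (max T1 (max 20 (max (2 * C) K))) :=
      (le_max_left _ _).trans ((le_max_right _ _).trans (le_max_right _ _))
    linarith
  intro T hT d hd
  have hTM : TM ≤ T := (le_max_left _ _).trans hT
  have hTT1 : T1 ≤ T := ((le_max_left _ _).trans (le_max_right _ _)).trans hT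
  have hT20 : 20 ≤ T :=
    ((le_max_left _ _).trans ((le_max_right _ _).trans (le_max_right _ _))).trans hT
  have hTC : 2 * C ≤ T := ((le_max_left _ _).trans ((le_max_right _ _).trans
    ((le_max_right _ _).trans (le_max_right _ _)))).trans hT
  have hTK : K ≤ T := ((le_max_right _ _).trans ((le_max_right _ _).trans
    ((le_max_right _ _).trans (le_max_right _ _)))).trans hT
  obtain ⟨hZT, hTT, hTH, hET, hMovT, hDT⟩ := hT1 T hTT1
  have hT0 : 0 < T := by linarith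
  have hT1' : 1 < T := by linarith
  have hlog : 0 < Real.log T := Real.log_pos hT1'
  have hlog1 : 1 ≤ Real.log T := by
    rw [Real.le_log_iff_exp_le hT0]
    have := Real.exp_one_lt_d9
    linarith
  have hcG : 0 < cG T := hDT.2.2.1
  have hTinv : 1 / T ≤ 1 := by rw [div_le_one hT0]; linarith
  obtain ⟨hALa, -, -⟩ := hLS.2.2.2.1 c hc1
  have hpow : ∀ a b : ℝ, a ≤ b → T ^ a ≤ T ^ b :=
    fun a b h => Real.rpow_le_rpow_of_exponent_le hT1'.le h
  set D : ℂ → ℂ := dpoly d (T ^ (1 - δ)) with hDdef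
  set F : ℂ → ℂ := fun s => D s * D (1 - s) with hF
  have hBd : Differentiable ℂ D := dpoly_diff d _
  have hFd : Differentiable ℂ F :=
    hBd.mul (hBd.comp ((differentiable_const _).sub differentiable_id))
  have hFconj : ∀ s : ℂ, (starRingEnd ℂ) (F (1 - (starRingEnd ℂ) s)) = F s := by
    intro s
    simp only [hF]
    rw [map_mul, hDdef, ← dpoly_conj, ← dpoly_conj, map_sub, map_one, Complex.conj_conj,
      map_sub, map_one, map_sub, map_one, Complex.conj_conj, mul_comm]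
    congr 2
    ring
  have hFhalf : ∀ t : ℝ, F (1 / 2 + t * I) = ((‖D (1 / 2 + t * I)‖ ^ 2 : ℝ) : ℂ) := by
    intro t
    simp only [hF]
    have h1 : D (1 - (1 / 2 + t * I)) = (starRingEnd ℂ) (D (1 / 2 + t * I)) := by
      rw [hDdef, ← dpoly_conj]
      congr 1
      simp only [map_add, map_mul, Complex.conj_ofReal, Complex.conj_I, map_div₀, map_one,
        map_ofNat]
      ring
    rw [h1, Complex.mul_conj, Complex.normSq_eq_norm_sq]
  have hZS := ZS_real T F (fun γ => ‖D (1 / 2 + γ * I)‖ ^ 2) hFhalf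
  set Z : ℝ := ∑ᶠ γ ∈ zset T, (mz γ : ℝ) * wt T γ * ‖D (1 / 2 + γ * I)‖ ^ 2 with hZdef
  have hDb : ∀ s : ℂ, -1 ≤ s.re → ‖D s‖ ≤ T ^ (5 : ℝ) := fun s hs =>
    sum_norm_le d _ T hT1'.le (floor_le_T T δ hT1'.le hδ0) hd s hs
  have hFb : ∀ s : ℂ, -1 ≤ s.re → s.re ≤ 2 → ‖F s‖ ≤ T ^ (10 : ℝ) := by
    intro s hs1 hs2
    simp only [hF]
    rw [norm_mul]
    have h6 : T ^ (10 : ℝ) = T ^ (5 : ℝ) * T ^ (5 : ℝ) := by
      rw [← Real.rpow_add hT0]; norm_num
    rw [h6]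
    exact mul_le_mul (hDb s hs1) (hDb _ (by rw [Complex.sub_re, Complex.one_re]; linarith))
      (norm_nonneg _) (by positivity)
  have hz := hZT F hFd.differentiableOn (fun s hs => (hFb s (by linarith [hs.1.1])
    (by linarith [hs.1.2])).trans (hpow _ _ (by rw [hA]; norm_num)))
  simp_rw [hFconj] at hz
  have hmv := hMovT F hFd.differentiableOn (fun s hs => (hFb s (by linarith [hs.1.1])
    (by linarith [hs.1.2])).trans (hpow _ _ (by rw [hA]; norm_num)))
  have hline : Continuous (fun t : ℝ => (c + t * I : ℂ)) := by fun_prop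
  have hre : ∀ t : ℝ, (c + t * I : ℂ).re = c := by intro t; simp
  have hWc : Continuous (WW T) := by unfold WW; fun_prop
  -- the zeta part
  have hzeta : ∀ t : ℝ, ‖logDeriv riemannZeta (c + t * I)‖ ≤ T := by
    intro t
    have h1 := ZBB.norm_LS_le La c hALa (c + t * I) (hre t)
    rw [hLS.1 _ (by rw [hre]; exact hc1), norm_neg] at h1
    exact h1.trans hTK
  have h1t : ∀ t : ℝ, (1 : ℝ) ≤ (1 + |t|) ^ A := by
    intro t
    exact Real.one_le_rpow (by linarith [abs_nonneg t]) (by rw [hA]; norm_num)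
  have hTA0 : 0 ≤ T ^ A := by positivity
  obtain ⟨i1, t1⟩ := hTT (fun s => logDeriv riemannZeta s * F s) (by
    exact ((ZBB.meas_zeta c hc1).mul (hFd.continuous.comp hline).measurable).aestronglyMeasurable)
    (fun t => by
      rw [norm_mul]
      have h1 : ‖logDeriv riemannZeta (c + t * I)‖ * ‖F (c + t * I)‖ ≤ T ^ A := by
        calc ‖logDeriv riemannZeta (c + t * I)‖ * ‖F (c + t * I)‖ ≤ T * T ^ (10 : ℝ) :=
              mul_le_mul (hzeta t) (hFb _ (by rw [hre]; linarith) (by rw [hre]; linarith))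
                (norm_nonneg _) hT0.le
          _ = T ^ (1 + 10 : ℝ) := by rw [Real.rpow_add hT0, Real.rpow_one]
          _ ≤ T ^ A := hpow _ _ (by rw [hA]; norm_num)
      exact h1.trans (le_mul_of_one_le_right hTA0 (h1t t)))
  obtain ⟨i2, -⟩ := hTH F (by
    have hl : Continuous (fun t : ℝ => (((1 / 2 : ℝ) : ℂ) + t * I : ℂ)) := by fun_prop
    exact (hFd.continuous.comp hl).aestronglyMeasurable) (fun t => by
      have h1 : ‖F (((1 / 2 : ℝ) : ℂ) + t * I)‖ ≤ T ^ A :=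
        (hFb _ (by simp; norm_num) (by simp; norm_num)).trans (hpow _ _ (by rw [hA]; norm_num))
      exact h1.trans (le_mul_of_one_le_right hTA0 (h1t t)))
  set S : ℝ := ∑ n ∈ Finset.Icc 1 ⌊T ^ (1 - δ)⌋₊, d n ^ 2 / (n : ℝ) with hS
  have hS0 : 0 ≤ S := Finset.sum_nonneg fun n _ => by positivity
  have hzp := zeta_le hLS c T δ CM hc1 hcG hT1'.le hδ0 hTK hCM d hd hET
  set V1 := VF c T (fun s => logDeriv riemannZeta s * F s * WW T s) with hV1
  set V3 := VF c T (fun s => om s * F s * WW T s) with hV3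
  have hV1re : V1.re ≤ 2 + cG T * ((Real.log T + CM) * S) := by
    have h1 := Complex.abs_re_le_norm (VI c (fun s => (logDeriv riemannZeta s * F s) * WW T s) - V1)
    have h2 := h1.trans t1
    rw [Complex.sub_re] at h2
    have h3 := neg_le_abs ((VI c (fun s => (logDeriv riemannZeta s * F s) * WW T s)).re - V1.re)
    have h4 : (VI c (fun s => (logDeriv riemannZeta s * F s) * WW T s)).re ≤
      1 / T + cG T * ((Real.log T + CM) * S) := hzp
    linarith
  have hV2 : VF c T (fun s => (om s + logDeriv riemannZeta s) * F s * WW T s) = V3 + V1 := by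
    rw [hV3, hV1]
    unfold VF
    rw [← mul_add, ← intervalIntegral.integral_add]
    · congr 1
      apply intervalIntegral.integral_congr
      intro t _
      simp only
      ring
    · apply ContinuousOn.intervalIntegrable
      intro t ht
      rw [Set.uIcc_of_le (by linarith)] at ht
      have h1 : DifferentiableAt ℂ om (c + t * I) :=
        P5.H51.om_diff hchi _ (by rw [hre]; linarith) (by
          simp only [Complex.add_im, Complex.ofReal_im, Complex.mul_im, Complex.ofReal_re,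
            Complex.I_im, Complex.I_re, mul_one, mul_zero, add_zero, zero_add]
          have := ht.1
          intro h
          linarith)
      have h2 : ContinuousAt (fun t : ℝ => om (c + t * I)) t :=
        ContinuousAt.comp (f := fun t : ℝ => (c + t * I : ℂ)) (g := om)
          h1.continuousAt hline.continuousAt
      exact ((h2.mul (hFd.continuous.comp hline).continuousAt).mul
        (hWc.comp hline).continuousAt).continuousWithinAt
    · exact i1.intervalIntegrable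
  rw [hV2] at hz
  -- the om part
  have hmean := mean_le T δ hT1'.le hδ0 d hd (fun g h1 h2 => (hTH g h1 h2).1) (hMM T hTM)
  have hom := P5.H59.om_line hchi C T hT1' (fun t h1 h2 => P5.H59.om_re_le C T hT20 hTC hC t h1 h2)
    D hBd.continuous F hFhalf i2 hFd.continuous _ hmean
  have hV3re : V3.re ≤ 1 + Real.log T * (2 * (cG T * S) + 4 / T) := by
    have h1 := Complex.abs_re_le_norm (V3 - VF (1 / 2) T (fun s => om s * F s * WW T s))
    have h2 := h1.trans hmv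
    rw [Complex.sub_re] at h2
    have h3 := le_abs_self (V3.re - (VF (1 / 2) T (fun s => om s * F s * WW T s)).re)
    linarith
  have hfin : Z ≤ 1 + V1.re + (V3.re + V1.re) := by
    have h1 := Complex.abs_re_le_norm (ZS T F - (V1 + (starRingEnd ℂ) (V3 + V1)))
    have h2 := h1.trans hz
    rw [hZS, Complex.sub_re, Complex.add_re, Complex.conj_re, Complex.add_re,
      Complex.ofReal_re] at h2
    have h3 := le_abs_self (Z - (V1.re + (V3.re + V1.re)))
    linarith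
  have hlT : Real.log T * (4 / T) ≤ 4 := by
    have h1 := Real.log_le_sub_one_of_pos hT0
    have h2 : Real.log T * (4 / T) = 4 * (Real.log T / T) := by ring
    have h3 : Real.log T / T ≤ 1 := by rw [div_le_one hT0]; linarith
    rw [h2]; linarith
  have hP0 : 0 ≤ cG T * S := mul_nonneg hcG.le hS0
  have hP : cG T * S ≤ cG T * S * Real.log T := le_mul_of_one_le_right hP0 hlog1
  have e1 : cG T * ((Real.log T + CM) * S) = cG T * S * Real.log T + CM * (cG T * S) := by ring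
  have e2 : Real.log T * (2 * (cG T * S) + 4 / T) =
      2 * (cG T * S * Real.log T) + Real.log T * (4 / T) := by ring
  rw [e1] at hV1re
  rw [e2] at hV3re
  have hCP : CM * (cG T * S) ≤ CM * (cG T * S * Real.log T) :=
    mul_le_mul_of_nonneg_left hP hCM0.le
  have hQ0 : 0 ≤ cG T * S * Real.log T := mul_nonneg hP0 hlog.le
  have hgoal : (10 + 2 * CM) * (cG T * Real.log T * S + 1) =
      10 * (cG T * S * Real.log T) + 2 * (CM * (cG T * S * Real.log T)) + 10 + 2 * CM := by ring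
  rw [hgoal]
  linarith

end Pool.Agent.Lib.MP_6bc78b_nt.MS.QZ.H70
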